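import Pool.Agent.H19.FS.KeyN
import Pool.Agent.H19.FO.Hall

/-!
# Cubic forms without multiple zeros
-/

namespace Pool.Agent.H19.FS

open Polynomial Pool.Agent.H19.FO

/-- Lower bound for a binary cubic form without multiple zeros. -/
lemma cubic_bound {G : ℚ[X]} (h2 : 2 ≤ G.natDegree) (h3 : G.natDegree ≤ 3)
    (hsep : IsCoprime G (derivative G)) (N : ℕ) :
    ∃ a : ℝ, 0 < a ∧ ∀ s t : ℤ, ¬ (s = 0 ∧ t = 0) →
      val (re G) 3 (s : ℝ) (t : ℝ) ≠ 0 → a * ht s t ^ N ≤ |val (re G) 3 (s : ℝ) (t : ℝ)| ^ (N + 1) := by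
  have hG : G ≠ 0 := by rintro rfl; simp at h2
  refine keyN hG (Nat.succ_pos N) (by omega) h3 ⟨by nlinarith, ?_⟩
  intro p hp _ e hpe
  have hm : 0 < p.natDegree := hp.natDegree_pos
  have he : e ≤ 1 := by
    by_contra hcon
    have h4 : p ^ 2 ∣ G := (pow_dvd_pow p (by omega)).trans hpe
    have h5 : p ∣ G := (dvd_pow_self p (by norm_num)).trans h4
    have h6 : p ∣ derivative G := by
      obtain ⟨q, hq⟩ := h4
      rw [hq, derivative_mul, derivative_pow]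
      apply dvd_add
      · apply Dvd.dvd.mul_right
        apply Dvd.dvd.mul_right
        apply Dvd.dvd.mul_left
        simp
      · apply Dvd.dvd.mul_right
        exact dvd_pow_self p (by norm_num)
    exact hp.not_isUnit (hsep.isUnit_of_dvd' h5 h6)
  constructor
  · intro h4
    have : 1 ≤ 3 - e * p.natDegree := by
      have : e * p.natDegree ≤ 1 * 2 := Nat.mul_le_mul he h4
      omega
    nlinarith
  · intro _ he0
    have : e = 1 := by omega
    subst this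
    simp

/-- The cubic forms `v (a³ + 3 d a b²) - u (3 a² b + d b³)`. -/
noncomputable def GG (d u v : ℤ) : ℤ[X] := (⟨v, -3 * u, 3 * d * v, -(d * u)⟩ : Cubic ℤ).toPoly

lemma val_cubic (P : Cubic ℤ) (s t : ℤ) :
    val P.toPoly 3 s t = P.a * s ^ 3 + P.b * s ^ 2 * t + P.c * s * t ^ 2 + P.d * t ^ 3 := by
  rw [val_eq_sum]
  simp only [Finset.sum_range_succ, Finset.sum_range_zero]
  rw [Cubic.coeff_eq_a, Cubic.coeff_eq_b, Cubic.coeff_eq_c, Cubic.coeff_eq_d]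
  simp
  ring

lemma cubic_natDegree_le (P : Cubic ℤ) : P.toPoly.natDegree ≤ 3 := by
  rw [natDegree_le_iff_coeff_eq_zero]
  intro n hn
  exact Cubic.coeff_eq_zero hn

lemma val_GG (d u v s t : ℤ) :
    val (GG d u v) 3 s t = v * (s ^ 3 + 3 * d * s * t ^ 2) - u * (3 * s ^ 2 * t + d * t ^ 3) := by
  unfold GG
  rw [val_cubic]
  ring

lemma GG_natDegree_le (d u v : ℤ) : (GG d u v).natDegree ≤ 3 := cubic_natDegree_le _

lemma GG_coeff (d u v : ℤ) : (GG d u v).coeff 3 = v ∧ (GG d u v).coeff 2 = -3 * u := by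
  unfold GG
  exact ⟨Cubic.coeff_eq_a, Cubic.coeff_eq_b⟩

lemma sep_of {K : Type*} [Field K] [CharZero K] (d u v : K) (hc : 2 * d * (u ^ 2 - d * v ^ 2) ≠ 0) :
    IsCoprime ((⟨v, -3 * u, 3 * d * v, -(d * u)⟩ : Cubic K).toPoly)
      (derivative ((⟨v, -3 * u, 3 * d * v, -(d * u)⟩ : Cubic K).toPoly)) := by
  have e3 : (C (3 : K)) = (3 : K[X]) := map_ofNat C 3
  have e2 : (C (2 : K)) = (2 : K[X]) := map_ofNat C 2
  have hG : ((⟨v, -3 * u, 3 * d * v, -(d * u)⟩ : Cubic K).toPoly) =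
      C v * X ^ 3 - 3 * C u * X ^ 2 + 3 * C d * C v * X - C d * C u := by
    unfold Cubic.toPoly
    simp only [neg_mul, C_neg, C_mul, e3]
    ring
  have hG' : derivative (C v * X ^ 3 - 3 * C u * X ^ 2 + 3 * C d * C v * X - C d * C u : K[X]) =
      3 * (C v * X ^ 2 - 2 * C u * X + C d * C v) := by
    rw [← e3, ← e2]
    simp only [derivative_sub, derivative_add, derivative_mul, derivative_C, derivative_X_pow, derivative_X]
    simp only [e3, e2, Nat.cast_ofNat, Nat.add_one_sub_one, pow_one]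
    ring
  rw [hG, hG']
  have hcc : C (2 * d * (u ^ 2 - d * v ^ 2))⁻¹ * (2 * C d * ((C u) ^ 2 - C d * (C v) ^ 2)) = (1 : K[X]) := by
    have h1 : (2 * C d * ((C u) ^ 2 - C d * (C v) ^ 2) : K[X]) = C (2 * d * (u ^ 2 - d * v ^ 2)) := by
      simp only [C_mul, C_sub, C_pow, e2]
    rw [h1, ← C_mul, inv_mul_cancel₀ hc, C_1]
  have h13 : C (1 / 3 : K) * (3 : K[X]) = 1 := by
    rw [← e3, ← C_mul]
    have : (1 / 3 : K) * 3 = 1 := by norm_num
    rw [this, C_1]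
  refine ⟨C (2 * d * (u ^ 2 - d * v ^ 2))⁻¹ * (-(2 * C u - C v * X)),
    C (2 * d * (u ^ 2 - d * v ^ 2))⁻¹ * (((2 * C u - C v * X) * X + (C u * X - 2 * C d * C v)) * C (1 / 3 : K)), ?_⟩
  linear_combination hcc + C (2 * d * (u ^ 2 - d * v ^ 2))⁻¹ *
    ((2 * C u - C v * X) * X + (C u * X - 2 * C d * C v)) * (C v * X ^ 2 - 2 * C u * X + C d * C v) * h13

/-- Lower bound for an integral binary cubic form without multiple zeros. -/
lemma int_cubic_bound {P : ℤ[X]} (h2 : 2 ≤ P.natDegree) (h3 : P.natDegree ≤ 3)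
    (hsep : IsCoprime (ra P) (derivative (ra P))) (N : ℕ) :
    ∃ a : ℝ, 0 < a ∧ ∀ s t : ℤ, ¬ (s = 0 ∧ t = 0) → val P 3 s t ≠ 0 →
      a * ht s t ^ N ≤ |((val P 3 s t : ℤ) : ℝ)| ^ (N + 1) := by
  have hdeg : (ra P).natDegree = P.natDegree := natDegree_map_eq_of_injective (RingHom.injective_int _) P
  obtain ⟨a, ha, h⟩ := cubic_bound (G := ra P) (by rw [hdeg]; exact h2) (by rw [hdeg]; exact h3) hsep N
  refine ⟨a, ha, fun s t hst hne => ?_⟩
  have hmap : ((val P 3 s t : ℤ) : ℝ) = val (re (ra P)) 3 (s : ℝ) (t : ℝ) := by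
    have h1 := map_val (Int.castRingHom ℝ) P 3 s t
    have h2 : re (ra P) = P.map (Int.castRingHom ℝ) := by
      unfold re ra
      rw [Polynomial.map_map]
      congr 1
    rw [h2]
    simpa using h1
  have h4 := h s t hst (by rw [← hmap]; exact_mod_cast hne)
  rw [← hmap] at h4
  exact h4

lemma GG_bound {d u v : ℤ} (hd : d ≠ 0) (hw : u ^ 2 - d * v ^ 2 ≠ 0) (N : ℕ) :
    ∃ a : ℝ, 0 < a ∧ ∀ s t : ℤ, ¬ (s = 0 ∧ t = 0) → val (GG d u v) 3 s t ≠ 0 →
      a * ht s t ^ N ≤ |((val (GG d u v) 3 s t : ℤ) : ℝ)| ^ (N + 1) := by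
  have h2 : 2 ≤ (GG d u v).natDegree := by
    by_cases hv : v = 0
    · have hu : u ≠ 0 := by rintro rfl; rw [hv] at hw; simp at hw
      apply le_natDegree_of_ne_zero
      rw [(GG_coeff d u v).2]
      simpa using hu
    · have : 3 ≤ (GG d u v).natDegree := by
        apply le_natDegree_of_ne_zero
        rw [(GG_coeff d u v).1]
        exact hv
      omega
  refine int_cubic_bound h2 (GG_natDegree_le d u v) ?_ N
  have hc : (2 * (d : ℚ) * ((u : ℚ) ^ 2 - d * v ^ 2)) ≠ 0 := by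
    have : (((u ^ 2 - d * v ^ 2 : ℤ)) : ℚ) ≠ 0 := by exact_mod_cast hw
    push_cast at this
    have hd' : (d : ℚ) ≠ 0 := by exact_mod_cast hd
    exact mul_ne_zero (mul_ne_zero two_ne_zero hd') this
  have hG : ra (GG d u v) = ((⟨(v : ℚ), -3 * (u : ℚ), 3 * (d : ℚ) * v, -((d : ℚ) * u)⟩ : Cubic ℚ).toPoly) := by
    unfold ra GG
    rw [← Cubic.map_toPoly]
    congr 1
    simp [Cubic.map]
  rw [hG]
  exact sep_of _ _ _ hc

/-- The forms `a³ - c b³`. -/
lemma pure_bound {c : ℤ} (hc : c ≠ 0) (N : ℕ) :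
    ∃ a : ℝ, 0 < a ∧ ∀ s t : ℤ, ¬ (s = 0 ∧ t = 0) → s ^ 3 - c * t ^ 3 ≠ 0 →
      a * ht s t ^ N ≤ |((s ^ 3 - c * t ^ 3 : ℤ) : ℝ)| ^ (N + 1) := by
  have hval : ∀ s t : ℤ, val ((⟨1, 0, 0, -c⟩ : Cubic ℤ).toPoly) 3 s t = s ^ 3 - c * t ^ 3 := by
    intro s t; rw [val_cubic]; ring
  have h3 : 3 ≤ ((⟨1, 0, 0, -c⟩ : Cubic ℤ).toPoly).natDegree := by
    apply le_natDegree_of_ne_zero
    rw [Cubic.coeff_eq_a]; norm_num
  obtain ⟨a, ha, h⟩ := int_cubic_bound (P := ((⟨1, 0, 0, -c⟩ : Cubic ℤ).toPoly)) (by omega)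
    (cubic_natDegree_le _) (by
      have hG : ra ((⟨1, 0, 0, -c⟩ : Cubic ℤ).toPoly) = X ^ 3 - C (c : ℚ) := by
        unfold ra
        rw [← Cubic.map_toPoly]
        simp [Cubic.map, Cubic.toPoly]
        ring
      rw [hG]
      have hc' : (c : ℚ) ≠ 0 := by exact_mod_cast hc
      exact (separable_X_pow_sub_C (c : ℚ) (by norm_num) hc')) N
  refine ⟨a, ha, fun s t hst hne => ?_⟩
  have := h s t hst (by rw [hval]; exact hne)
  rw [hval] at this
  exact this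

end Pool.Agent.H19.FS
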