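import Pool.Agent.H19.FS.Main

/-!
# Integral points on the curves `y² = x³ + d z²`, end of the proof
-/

namespace Pool.Agent.H19.FS

open Pool.Agent.H19.FO

/-- Squares: the parametrisation. -/
lemma square_param {x y w : ℤ} (hcop : IsCoprime x y) (hw : w ≠ 0) (heq : y ^ 2 = x ^ 3 + w ^ 2) :
    ∃ s t c : ℤ, (c = 1 ∨ c = 2) ∧ s ^ 3 - c * t ^ 3 ≠ 0 ∧ |s ^ 3 - c * t ^ 3| ≤ 2 * |w| ∧ |x| ≤ 2 * |s * t| := by
  have hmn : (y - w) * (y + w) = x ^ 3 := by linear_combination heq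
  rcases Int.even_or_odd x with hx | hx
  · -- `x` even
    obtain ⟨x', hx'⟩ := hx
    have hx2 : x = 2 * x' := by linarith
    have hcop2 : IsCoprime (2 : ℤ) y := by
      rw [hx2] at hcop; exact hcop.of_mul_left_left
    have hcopx' : IsCoprime x' y := by
      rw [hx2] at hcop; exact hcop.of_mul_left_right
    have hyodd : Odd y := by
      rcases Int.even_or_odd y with h | h
      · exfalso
        obtain ⟨e, he⟩ := h
        obtain ⟨p, q, hpq⟩ := hcop2
        have h1 : 2 * (p + q * e) = 1 := by rw [he] at hpq; linear_combination hpq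
        omega
      · exact h
    have hwodd : Odd w := by
      rcases Int.even_or_odd w with h | h
      · exfalso
        have h1 : Even (y ^ 2) := by
          rw [heq, hx2]
          refine Even.add ?_ ?_
          · exact ⟨4 * x' ^ 3, by ring⟩
          · exact h.pow_of_ne_zero (by norm_num)
        have h2 : Odd (y ^ 2) := hyodd.pow
        exact (Int.not_even_iff_odd.mpr h2) h1
      · exact h
    obtain ⟨m, hm⟩ : Even (y - w) := hyodd.sub_odd hwodd
    obtain ⟨n, hn⟩ : Even (y + w) := hyodd.add_odd hwodd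
    have hy : y = m + n := by linarith
    have hww : w = n - m := by linarith
    have hprod : m * n = 2 * x' ^ 3 := by
      have h1 : (m + m) * (n + n) = (2 * x') ^ 3 := by rw [← hm, ← hn, hmn, hx2]
      have h2 : 4 * (m * n) = 4 * (2 * x' ^ 3) := by linear_combination h1
      linarith
    have hcopmn : IsCoprime m n := by
      have h1 : IsCoprime (2 * x' ^ 3) y := hcop2.mul_left hcopx'.pow_left
      rw [← hprod, hy] at h1
      obtain ⟨a, b, hab⟩ := h1
      exact ⟨a * n + b, b, by linear_combination hab⟩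
    have h2 : (2 : ℤ) ∣ m * n := ⟨x' ^ 3, hprod⟩
    rcases Int.prime_two.dvd_or_dvd h2 with h3 | h3
    · obtain ⟨m', rfl⟩ := h3
      have hp : m' * n = x' ^ 3 := by
        have : 2 * (m' * n) = 2 * x' ^ 3 := by linear_combination hprod
        linarith
      have hc' : IsCoprime m' n := hcopmn.of_mul_left_right
      obtain ⟨A, hA⟩ := Int.eq_pow_of_mul_eq_pow_odd_left hc' (by decide : Odd 3) hp
      obtain ⟨B, hB⟩ := Int.eq_pow_of_mul_eq_pow_odd_right hc' (by decide : Odd 3) hp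
      have hwAB : w = B ^ 3 - 2 * A ^ 3 := by rw [hww, hA, hB]
      have hxAB : x' = A * B := by
        have : x' ^ 3 = (A * B) ^ 3 := by rw [← hp, hA, hB]; ring
        exact (Odd.strictMono_pow (by decide : Odd 3)).injective this
      refine ⟨B, A, 2, Or.inr rfl, by rw [← hwAB]; exact hw, ?_, ?_⟩
      · rw [← hwAB]; have := abs_nonneg w; linarith
      · rw [hx2, hxAB, abs_mul]
        have : |(2 : ℤ)| = 2 := by norm_num
        rw [this, mul_comm A B]
    · obtain ⟨n', rfl⟩ := h3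
      have hp : m * n' = x' ^ 3 := by
        have : 2 * (m * n') = 2 * x' ^ 3 := by linear_combination hprod
        linarith
      have hc' : IsCoprime m n' := hcopmn.of_mul_right_right
      obtain ⟨A, hA⟩ := Int.eq_pow_of_mul_eq_pow_odd_left hc' (by decide : Odd 3) hp
      obtain ⟨B, hB⟩ := Int.eq_pow_of_mul_eq_pow_odd_right hc' (by decide : Odd 3) hp
      have hwAB : -w = A ^ 3 - 2 * B ^ 3 := by rw [hww, hA, hB]; ring
      have hxAB : x' = A * B := by
        have : x' ^ 3 = (A * B) ^ 3 := by rw [← hp, hA, hB]; ring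
        exact (Odd.strictMono_pow (by decide : Odd 3)).injective this
      refine ⟨A, B, 2, Or.inr rfl, by rw [← hwAB]; exact neg_ne_zero.mpr hw, ?_, ?_⟩
      · rw [← hwAB, abs_neg]; have := abs_nonneg w; linarith
      · rw [hx2, hxAB, abs_mul]
        have : |(2 : ℤ)| = 2 := by norm_num
        rw [this]
  · -- `x` odd
    have hcopx2 : IsCoprime x (2 * y) := by
      refine IsCoprime.mul_right ?_ hcop
      obtain ⟨e, he⟩ := hx
      exact ⟨1, -e, by rw [he]; ring⟩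
    have hcopmn : IsCoprime (y - w) (y + w) := by
      have h1 : IsCoprime (x ^ 3) (2 * y) := hcopx2.pow_left
      rw [← hmn] at h1
      obtain ⟨a, b, hab⟩ := h1
      exact ⟨a * (y + w) + b, b, by linear_combination hab⟩
    obtain ⟨A, hA⟩ := Int.eq_pow_of_mul_eq_pow_odd_left hcopmn (by decide : Odd 3) hmn
    obtain ⟨B, hB⟩ := Int.eq_pow_of_mul_eq_pow_odd_right hcopmn (by decide : Odd 3) hmn
    have hw2 : B ^ 3 - 1 * A ^ 3 = 2 * w := by rw [← hA, ← hB]; ring
    have hxAB : x = A * B := by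
      have : x ^ 3 = (A * B) ^ 3 := by rw [← hmn, hA, hB]; ring
      exact (Odd.strictMono_pow (by decide : Odd 3)).injective this
    refine ⟨B, A, 1, Or.inl rfl, by rw [hw2]; exact mul_ne_zero two_ne_zero hw, ?_, ?_⟩
    · rw [hw2, abs_mul]; norm_num
    · rw [hxAB, mul_comm A B]; have := abs_nonneg (B * A); linarith

lemma square_case (N : ℕ) :
    ∃ C : ℝ, 0 < C ∧ ∀ x y w : ℤ, IsCoprime x y → w ≠ 0 → y ^ 2 = x ^ 3 + w ^ 2 →
      |(x : ℝ)| ^ N ≤ C * |((w ^ 2 : ℤ) : ℝ)| ^ (N + 1) := by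
  obtain ⟨a₁, ha₁, hform⟩ := exists_uniform ({1, 2} : Finset ℤ)
    (fun i c => ∀ s t : ℤ, ¬ (s = 0 ∧ t = 0) → s ^ 3 - i * t ^ 3 ≠ 0 →
      c * ht s t ^ N ≤ |((s ^ 3 - i * t ^ 3 : ℤ) : ℝ)| ^ (N + 1))
    (by
      intro i c c' _ hcc h s t hst hne
      have hH : 0 ≤ ht s t := le_max_of_le_left (abs_nonneg _)
      exact (mul_le_mul_of_nonneg_right hcc (by positivity)).trans (h s t hst hne))
    (by
      intro i hi
      exact pure_bound (c := i) (by
        rintro rfl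
        simp at hi) N)
  refine ⟨2 ^ N * 2 ^ (2 * (N + 1)) / a₁ ^ 2, by positivity, ?_⟩
  intro x y w hcop hw heq
  obtain ⟨s, t, c, hc, hne, hle, hx⟩ := square_param hcop hw heq
  have hst : ¬ (s = 0 ∧ t = 0) := by
    rintro ⟨rfl, rfl⟩
    apply hne; ring
  have h1 := hform c (by rcases hc with rfl | rfl <;> simp) s t hst hne
  have hH1 := ht_ge_one hst
  set H := ht s t with hH
  have h2 : |((s ^ 3 - c * t ^ 3 : ℤ) : ℝ)| ≤ 2 * |(w : ℝ)| := by exact_mod_cast hle
  have h3 : a₁ * H ^ N ≤ (2 * |(w : ℝ)|) ^ (N + 1) := h1.trans (pow_le_pow_left₀ (abs_nonneg _) h2 _)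
  have hxH : |(x : ℝ)| ≤ 2 * H ^ 2 := by
    have h4 : |(x : ℝ)| ≤ 2 * |(s : ℝ) * t| := by exact_mod_cast hx
    refine h4.trans ?_
    rw [abs_mul]
    have h5 : |(s : ℝ)| * |(t : ℝ)| ≤ H * H :=
      mul_le_mul (le_max_left _ _) (le_max_right _ _) (abs_nonneg _) (by positivity)
    nlinarith
  have h8 : (a₁ * H ^ N) ^ 2 ≤ ((2 * |(w : ℝ)|) ^ (N + 1)) ^ 2 := pow_le_pow_left₀ (by positivity) h3 2
  have h9 : ((2 * |(w : ℝ)|) ^ (N + 1)) ^ 2 = 2 ^ (2 * (N + 1)) * |((w ^ 2 : ℤ) : ℝ)| ^ (N + 1) := by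
    push_cast
    rw [abs_pow, ← pow_mul, mul_pow, ← pow_mul, mul_comm (N + 1) 2]
  rw [div_mul_eq_mul_div, le_div_iff₀ (by positivity)]
  calc |(x : ℝ)| ^ N * a₁ ^ 2 ≤ (2 * H ^ 2) ^ N * a₁ ^ 2 := by gcongr
    _ = 2 ^ N * (a₁ * H ^ N) ^ 2 := by
        rw [mul_pow, mul_pow, ← pow_mul, ← pow_mul, mul_comm 2 N]; ring
    _ ≤ 2 ^ N * (2 ^ (2 * (N + 1)) * |((w ^ 2 : ℤ) : ℝ)| ^ (N + 1)) := by
        rw [← h9]; gcongr
    _ = _ := by ring

/-- For every `d ≠ 0`. -/
lemma each_d {d : ℤ} (hd0 : d ≠ 0) (N : ℕ) :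
    ∃ C : ℝ, 0 < C ∧ ∀ x y z : ℤ, IsCoprime x y → z ≠ 0 → y ^ 2 = x ^ 3 + d * z ^ 2 →
      |(x : ℝ)| ^ N ≤ C * |((d * z ^ 2 : ℤ) : ℝ)| ^ (N + 1) := by
  by_cases hd : IsSquare d
  · obtain ⟨c, rfl⟩ := hd
    have hc : c ≠ 0 := by rintro rfl; exact hd0 (by ring)
    obtain ⟨C, hC, h⟩ := square_case N
    refine ⟨C, hC, fun x y z hcop hz heq => ?_⟩
    have e : c * c * z ^ 2 = (c * z) ^ 2 := by ring
    rw [e] at heq ⊢
    exact h x y (c * z) hcop (mul_ne_zero hc hz) heq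
  · obtain ⟨C, hC, h⟩ := nonsquare_main hd N
    refine ⟨C + 4 ^ N, by positivity, fun x y z hcop hz heq => ?_⟩
    set K : ℤ := d * z ^ 2 with hK
    have hK0 : K ≠ 0 := mul_ne_zero hd0 (pow_ne_zero 2 hz)
    have hK1 : (1 : ℝ) ≤ |(K : ℝ)| := by
      have := Int.one_le_abs hK0
      exact_mod_cast this
    have hK1' : 1 ≤ |K| := Int.one_le_abs hK0
    by_cases hmain : 0 < x ∧ 4 * |K| ≤ x ^ 3
    · have h1 := h x y z hmain.1 hcop hz heq hmain.2
      rw [abs_of_pos (by exact_mod_cast hmain.1 : (0 : ℝ) < x)]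
      refine h1.trans ?_
      apply mul_le_mul_of_nonneg_right _ (by positivity)
      have : (0 : ℝ) < 4 ^ N := by positivity
      linarith
    · have hx4 : |x| ≤ 4 * |K| := by
        by_contra hlt
        push Not at hlt
        have hx1 : 1 ≤ |x| := by linarith
        have hx3 : |x| ≤ |x| ^ 3 := by
          calc |x| = |x| ^ 1 := (pow_one _).symm
            _ ≤ |x| ^ 3 := pow_le_pow_right₀ hx1 (by norm_num)
        rcases lt_or_ge 0 x with h1 | h1
        · apply hmain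
          refine ⟨h1, ?_⟩
          rw [abs_of_pos h1] at hx3 hlt
          linarith
        · have h2 : |x| ^ 3 = -x ^ 3 := by rw [abs_of_nonpos h1]; ring
          have h3 : -x ^ 3 ≤ |K| := by
            have := sq_nonneg y
            have := le_abs_self K
            linarith
          linarith
      have hx4r : |(x : ℝ)| ≤ 4 * |(K : ℝ)| := by exact_mod_cast hx4
      calc |(x : ℝ)| ^ N ≤ (4 * |(K : ℝ)|) ^ N := pow_le_pow_left₀ (abs_nonneg _) hx4r N
        _ = 4 ^ N * |(K : ℝ)| ^ N := mul_pow _ _ _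
        _ ≤ 4 ^ N * |(K : ℝ)| ^ (N + 1) := by
            apply mul_le_mul_of_nonneg_left _ (by positivity)
            exact pow_le_pow_right₀ hK1 (by omega)
        _ ≤ _ := by
            apply mul_le_mul_of_nonneg_right _ (by positivity)
            linarith

/-- **Curves `y² = x³ + k` with `k` of bounded squarefree part.** -/
theorem bounded_squarefree (D N : ℕ) :
    ∃ C : ℝ, 0 < C ∧ ∀ d z x y k : ℤ, |d| ≤ D → k = d * z ^ 2 → k ≠ 0 → y ^ 2 = x ^ 3 + k → IsCoprime x y →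
      |(x : ℝ)| ^ N ≤ C * |(k : ℝ)| ^ (N + 1) := by
  have h : ∃ c : ℝ, 0 < c ∧ ∀ d ∈ Finset.Icc (-(D : ℤ)) D, (d ≠ 0 → ∀ x y z : ℤ, IsCoprime x y → z ≠ 0 →
      y ^ 2 = x ^ 3 + d * z ^ 2 → c * |(x : ℝ)| ^ N ≤ |((d * z ^ 2 : ℤ) : ℝ)| ^ (N + 1)) := by
    apply exists_uniform (Finset.Icc (-(D : ℤ)) D) (fun d c => d ≠ 0 → ∀ x y z : ℤ, IsCoprime x y → z ≠ 0 →
      y ^ 2 = x ^ 3 + d * z ^ 2 → c * |(x : ℝ)| ^ N ≤ |((d * z ^ 2 : ℤ) : ℝ)| ^ (N + 1))
    · intro d c c' _ hcc h hd x y z hcop hz heq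
      exact (mul_le_mul_of_nonneg_right hcc (by positivity)).trans (h hd x y z hcop hz heq)
    · intro d _
      by_cases hd : d = 0
      · exact ⟨1, one_pos, fun h => absurd hd h⟩
      · obtain ⟨C, hC, h⟩ := each_d hd N
        refine ⟨1 / C, by positivity, fun _ x y z hcop hz heq => ?_⟩
        have := h x y z hcop hz heq
        rw [one_div, inv_mul_le_iff₀ hC]
        exact this
  obtain ⟨c, hc, h⟩ := h
  refine ⟨1 / c, by positivity, fun d z x y k hdD hk hk0 heq hcop => ?_⟩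
  have hd : d ≠ 0 := by rintro rfl; apply hk0; rw [hk]; ring
  have hz : z ≠ 0 := by rintro rfl; apply hk0; rw [hk]; ring
  have h1 := h d (by rw [Finset.mem_Icc]; exact abs_le.mp hdD) hd x y z hcop hz (by rw [heq, hk])
  rw [one_div, ← div_eq_inv_mul, le_div_iff₀' hc, hk]
  exact h1

/-- The exponent is optimal, even for `k = - z²`. -/
theorem optimal (M : ℤ) : ∃ x y z : ℤ, M ≤ x ∧ z ≠ 0 ∧ y ^ 2 = x ^ 3 + (-1) * z ^ 2 ∧ IsCoprime x y ∧ z ^ 2 < x := by
  have pell : ∀ n : ℕ, ∃ a b : ℤ, b ^ 2 = 3 * a ^ 2 + 1 ∧ (n : ℤ) < a ∧ 0 < b := by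
    intro n
    induction n with
    | zero => exact ⟨1, 2, by norm_num, by norm_num, by norm_num⟩
    | succ n ih =>
      obtain ⟨a, b, h, hn, hb⟩ := ih
      refine ⟨2 * a + b, 3 * a + 2 * b, by linear_combination h, by push_cast; linarith, by
        have : (0 : ℤ) ≤ n := Int.natCast_nonneg n
        linarith⟩
  obtain ⟨a, b, h, hM, hb⟩ := pell M.toNat
  have hMa : M < a := lt_of_le_of_lt (Int.self_le_toNat M) hM
  have ha0 : 0 < a := lt_of_le_of_lt (Int.natCast_nonneg _) hM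
  refine ⟨4 * a ^ 2 + 1, a * (8 * a ^ 2 + 3), b, by nlinarith, hb.ne', by linear_combination h, ?_, by nlinarith⟩
  refine IsCoprime.mul_right ⟨1, -4 * a, by ring⟩ ⟨-2, 1, by ring⟩

end Pool.Agent.H19.FS
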