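import Mathlib

/-!
# Thue's lemma and cubes in `ℤ[√d]`
-/

namespace Pool.Agent.H19.FS

/-- Thue's lemma. -/
lemma thue {x : ℤ} (hx : 0 < x) (y z : ℤ) :
    ∃ a b : ℤ, ¬ (a = 0 ∧ b = 0) ∧ a ^ 2 ≤ x ∧ b ^ 2 ≤ x ∧ x ∣ a * z - b * y := by
  obtain ⟨X, rfl⟩ : ∃ X : ℕ, x = X := ⟨x.toNat, (Int.toNat_of_nonneg hx.le).symm⟩
  have hX : 0 < X := by exact_mod_cast hx
  have hX0 : NeZero X := ⟨hX.ne'⟩
  set m := Nat.sqrt X with hm
  have hm1 : X < (m + 1) * (m + 1) := Nat.lt_succ_sqrt X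
  have hm2 : m * m ≤ X := Nat.sqrt_le X
  have hcard : (Finset.univ : Finset (ZMod X)).card < (Finset.range (m + 1) ×ˢ Finset.range (m + 1)).card := by
    rw [Finset.card_univ, ZMod.card, Finset.card_product, Finset.card_range]
    exact hm1
  obtain ⟨p, hp, q, hq, hpq, hf⟩ := Finset.exists_ne_map_eq_of_card_lt_of_maps_to hcard
    (f := fun p : ℕ × ℕ => (((p.1 : ℤ) * z - (p.2 : ℤ) * y : ℤ) : ZMod X)) (fun _ _ => Finset.mem_univ _)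
  rw [Finset.mem_product, Finset.mem_range, Finset.mem_range] at hp hq
  refine ⟨(p.1 : ℤ) - q.1, (p.2 : ℤ) - q.2, ?_, ?_, ?_, ?_⟩
  · rintro ⟨h1, h2⟩
    apply hpq
    apply Prod.ext
    · have : (p.1 : ℤ) = q.1 := by linarith
      exact_mod_cast this
    · have : (p.2 : ℤ) = q.2 := by linarith
      exact_mod_cast this
  · have h1 : |(p.1 : ℤ) - q.1| ≤ m := by
      rw [abs_le]; constructor <;> · have := hp.1; have := hq.1; omega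
    calc ((p.1 : ℤ) - q.1) ^ 2 = |(p.1 : ℤ) - q.1| ^ 2 := (sq_abs _).symm
      _ ≤ (m : ℤ) ^ 2 := pow_le_pow_left₀ (abs_nonneg _) h1 2
      _ ≤ X := by rw [sq]; exact_mod_cast hm2
  · have h1 : |(p.2 : ℤ) - q.2| ≤ m := by
      rw [abs_le]; constructor <;> · have := hp.2; have := hq.2; omega
    calc ((p.2 : ℤ) - q.2) ^ 2 = |(p.2 : ℤ) - q.2| ^ 2 := (sq_abs _).symm
      _ ≤ (m : ℤ) ^ 2 := pow_le_pow_left₀ (abs_nonneg _) h1 2
      _ ≤ X := by rw [sq]; exact_mod_cast hm2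
  · have h1 : ((((p.1 : ℤ) * z - (p.2 : ℤ) * y) - ((q.1 : ℤ) * z - (q.2 : ℤ) * y) : ℤ) : ZMod X) = 0 := by
      have hf' : (((p.1 : ℤ) * z - (p.2 : ℤ) * y : ℤ) : ZMod X) = (((q.1 : ℤ) * z - (q.2 : ℤ) * y : ℤ) : ZMod X) := hf
      rw [Int.cast_sub, hf', sub_self]
    rw [ZMod.intCast_zmod_eq_zero_iff_dvd] at h1
    convert h1 using 1
    ring

/-- A solution of `y² - d z² = x³` with coprime `x`, `z` is, up to a factor `κ = u + v √d`, the cube of a small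
element `a + b √d`. -/
lemma cube_up_to {d x y z : ℤ} (hx : 0 < x) (hcop : IsCoprime x z) (heq : y ^ 2 - d * z ^ 2 = x ^ 3) :
    ∃ a b u v q : ℤ, ¬ (a = 0 ∧ b = 0) ∧ a ^ 2 ≤ x ∧ b ^ 2 ≤ x ∧ a ^ 2 - d * b ^ 2 = x * q ∧
      x ^ 3 * u = (a ^ 3 + 3 * d * a * b ^ 2) * y - d * (3 * a ^ 2 * b + d * b ^ 3) * z ∧
      x ^ 3 * v = (3 * a ^ 2 * b + d * b ^ 3) * y - (a ^ 3 + 3 * d * a * b ^ 2) * z := by
  obtain ⟨a, b, hab, ha, hb, hdvd⟩ := thue hx y z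
  -- an inverse of `z` modulo `x ^ 3`
  obtain ⟨e', e, he⟩ : IsCoprime (x ^ 3) z := hcop.pow_left
  -- e * z = 1 - e' * x ^ 3
  set r := e * y with hr
  -- y = r z + x ^ 3 m2
  have hm2 : y = r * z + x ^ 3 * (e' * y) := by
    rw [hr]; linear_combination (-y) * he
  set m2 := e' * y with hm2d
  have hz3 : x ^ 3 ∣ r ^ 2 - d := by
    have h1 : x ^ 3 ∣ z ^ 2 * (r ^ 2 - d) := by
      refine ⟨1 - (2 * r * z * m2 + x ^ 3 * m2 ^ 2), ?_⟩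
      have h2 : (r * z + x ^ 3 * m2) ^ 2 - d * z ^ 2 = x ^ 3 := by rw [← hm2]; exact heq
      linear_combination h2
    have h3 : IsCoprime (x ^ 3) (z ^ 2) := hcop.pow
    exact h3.dvd_of_dvd_mul_left h1
  obtain ⟨m3, hm3⟩ := hz3
  have hxa : x ∣ a - r * b := by
    have h1 : x ∣ z * (a - r * b) := by
      have h2 : x ∣ (a * z - b * y) + x * (x ^ 2 * m2 * b) := dvd_add hdvd (dvd_mul_right _ _)
      have h3 : z * (a - r * b) = (a * z - b * y) + x * (x ^ 2 * m2 * b) := by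
        linear_combination b * hm2
      rw [h3]; exact h2
    exact hcop.dvd_of_dvd_mul_left h1
  obtain ⟨m1, hm1⟩ := hxa
  have ha' : a = r * b + x * m1 := by linarith
  refine ⟨a, b, z * (b ^ 3 * m3 * (r ^ 2 + d) + 3 * b ^ 2 * m3 * x * m1 * r + 3 * b * m3 * x ^ 2 * m1 ^ 2 +
      m1 ^ 3 * r) + m2 * (a ^ 3 + 3 * d * a * b ^ 2),
    z * (b ^ 3 * m3 * (2 * r) + 3 * b ^ 2 * m3 * x * m1 - m1 ^ 3) + m2 * (3 * a ^ 2 * b + d * b ^ 3),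
    b ^ 2 * x ^ 2 * m3 + 2 * r * b * m1 + x * m1 ^ 2, hab, ha, hb, ?_, ?_, ?_⟩
  · rw [ha']; linear_combination b ^ 2 * hm3
  · have e1 : (a ^ 3 + 3 * d * a * b ^ 2) * y - d * (3 * a ^ 2 * b + d * b ^ 3) * z =
        (a ^ 3 + 3 * d * a * b ^ 2) * (r * z) - d * (3 * a ^ 2 * b + d * b ^ 3) * z +
          x ^ 3 * m2 * (a ^ 3 + 3 * d * a * b ^ 2) := by
      linear_combination (a ^ 3 + 3 * d * a * b ^ 2) * hm2
    rw [e1, ha']
    linear_combination (-z * (b ^ 3 * (r ^ 2 + d) + 3 * b ^ 2 * r * x * m1 + 3 * b * x ^ 2 * m1 ^ 2)) * hm3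
  · have e1 : (3 * a ^ 2 * b + d * b ^ 3) * y - (a ^ 3 + 3 * d * a * b ^ 2) * z =
        (3 * a ^ 2 * b + d * b ^ 3) * (r * z) - (a ^ 3 + 3 * d * a * b ^ 2) * z +
          x ^ 3 * m2 * (3 * a ^ 2 * b + d * b ^ 3) := by
      linear_combination (3 * a ^ 2 * b + d * b ^ 3) * hm2
    rw [e1, ha']
    linear_combination (-z * (2 * r * b ^ 3 + 3 * b ^ 2 * x * m1)) * hm3

end Pool.Agent.H19.FS
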