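import Pool.Agent.H19.FS.Cubic
import Pool.Agent.H19.FS.Thue

/-!
# Integral points on the curves `y² = x³ + d z²`
-/

namespace Pool.Agent.H19.FS

open Pool.Agent.H19.FO

lemma exists_uniform {ι : Type*} (S : Finset ι) (P : ι → ℝ → Prop)
    (hmono : ∀ i c c', 0 < c' → c' ≤ c → P i c → P i c') (h : ∀ i ∈ S, ∃ c : ℝ, 0 < c ∧ P i c) :
    ∃ c : ℝ, 0 < c ∧ ∀ i ∈ S, P i c := by
  classical
  induction S using Finset.induction_on with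
  | empty => exact ⟨1, one_pos, fun i hi => absurd hi (Finset.notMem_empty i)⟩
  | insert i S _ ih =>
    obtain ⟨c, hc, h1⟩ := ih fun j hj => h j (Finset.mem_insert_of_mem hj)
    obtain ⟨c', hc', h2⟩ := h i (Finset.mem_insert_self i S)
    refine ⟨min c c', lt_min hc hc', fun j hj => ?_⟩
    rcases Finset.mem_insert.mp hj with rfl | hj
    · exact hmono _ c' _ (lt_min hc hc') (min_le_right _ _) h2
    · exact hmono _ c _ (lt_min hc hc') (min_le_left _ _) (h1 j hj)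

lemma coprime_z {d x y z : ℤ} (hcop : IsCoprime x y) (heq : y ^ 2 = x ^ 3 + d * z ^ 2) : IsCoprime x z := by
  have h1 : IsCoprime x (y ^ 2) := hcop.pow_right
  have h2 : IsCoprime x (d * z ^ 2) := by
    have h3 := h1.add_mul_left_right (-x ^ 2)
    have e : y ^ 2 + x * (-x ^ 2) = d * z ^ 2 := by rw [heq]; ring
    rw [e] at h3; exact h3
  have h4 : IsCoprime x (z ^ 2) := h2.of_mul_right_right
  exact (IsCoprime.pow_right_iff (by norm_num)).mp h4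

lemma isSquare_of {d a b : ℤ} (hab : ¬ (a = 0 ∧ b = 0)) (h : a ^ 2 = d * b ^ 2) : IsSquare d := by
  have hb : b ≠ 0 := by
    rintro rfl
    apply hab
    refine ⟨?_, rfl⟩
    have : a ^ 2 = 0 := by rw [h]; ring
    exact pow_eq_zero_iff (two_ne_zero) |>.mp this
  have h1 : b ^ 2 ∣ a ^ 2 := ⟨d, by rw [h]; ring⟩
  have h2 : b ∣ a := (Int.pow_dvd_pow_iff (by norm_num)).mp h1
  obtain ⟨c, rfl⟩ := h2
  refine ⟨c, ?_⟩
  have h3 : b ^ 2 * d = b ^ 2 * (c * c) := by linear_combination -h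
  exact mul_left_cancel₀ (pow_ne_zero 2 hb) h3

/-- The bound in the main range, for `d` not a square. -/
lemma nonsquare_main {d : ℤ} (hd : ¬ IsSquare d) (N : ℕ) :
    ∃ C : ℝ, 0 < C ∧ ∀ x y z : ℤ, 0 < x → IsCoprime x y → z ≠ 0 → y ^ 2 = x ^ 3 + d * z ^ 2 →
      4 * |d * z ^ 2| ≤ x ^ 3 → (x : ℝ) ^ N ≤ C * |((d * z ^ 2 : ℤ) : ℝ)| ^ (N + 1) := by
  have hd0 : d ≠ 0 := by rintro rfl; exact hd (IsSquare.zero)
  set U : ℤ := 7 + 9 * |d| + |d| ^ 2 with hU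
  obtain ⟨a₁, ha₁, hform⟩ := exists_uniform (Finset.Icc (-U) U ×ˢ Finset.Icc (-U) U)
    (fun i c => i.1 ^ 2 - d * i.2 ^ 2 ≠ 0 → ∀ s t : ℤ, ¬ (s = 0 ∧ t = 0) → val (GG d i.1 i.2) 3 s t ≠ 0 →
      c * ht s t ^ N ≤ |((val (GG d i.1 i.2) 3 s t : ℤ) : ℝ)| ^ (N + 1))
    (by
      intro i c c' _ hcc h hw s t hst hne
      have hH : 0 ≤ ht s t := le_max_of_le_left (abs_nonneg _)
      exact (mul_le_mul_of_nonneg_right hcc (by positivity)).trans (h hw s t hst hne))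
    (by
      intro i _
      by_cases hw : i.1 ^ 2 - d * i.2 ^ 2 = 0
      · exact ⟨1, one_pos, fun h => absurd hw h⟩
      · obtain ⟨a, ha, h⟩ := GG_bound hd0 hw N
        exact ⟨a, ha, fun _ => h⟩)
  set D : ℝ := |(d : ℝ)| with hD
  have hD0 : 0 ≤ D := abs_nonneg _
  refine ⟨(1 + D) ^ N * ((1 + D) ^ 3) ^ (2 * (N + 1)) / a₁ ^ 2, by positivity, ?_⟩
  intro x y z hx hcop hz heq hK
  have hcz := coprime_z hcop heq
  obtain ⟨a, b, u, v, q, hab, ha, hb, hq, hu, hv⟩ := cube_up_to (d := d) hx hcz (by rw [heq]; ring)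
  have hx3 : (x : ℤ) ^ 3 ≠ 0 := pow_ne_zero 3 hx.ne'
  have hq0 : q ≠ 0 := by
    rintro rfl
    exact hd (isSquare_of hab (by linarith))
  have hw : u ^ 2 - d * v ^ 2 = q ^ 3 := by
    have h1 : x ^ 3 * x ^ 3 * (u ^ 2 - d * v ^ 2) = x ^ 3 * x ^ 3 * q ^ 3 := by
      have h2 : (a ^ 2 - d * b ^ 2) ^ 3 = (x * q) ^ 3 := by rw [hq]
      have h3 : (x ^ 3 * u) ^ 2 = ((a ^ 3 + 3 * d * a * b ^ 2) * y - d * (3 * a ^ 2 * b + d * b ^ 3) * z) ^ 2 := by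
        rw [hu]
      have h4 : (x ^ 3 * v) ^ 2 = ((3 * a ^ 2 * b + d * b ^ 3) * y - (a ^ 3 + 3 * d * a * b ^ 2) * z) ^ 2 := by
        rw [hv]
      linear_combination h3 - d * h4 + (y ^ 2 - d * z ^ 2) * h2 + x ^ 3 * q ^ 3 * heq
    exact mul_left_cancel₀ (mul_ne_zero hx3 hx3) h1
  have hval : val (GG d u v) 3 a b = -(q ^ 3 * z) := by
    rw [val_GG]
    have h1 : x ^ 3 * (v * (a ^ 3 + 3 * d * a * b ^ 2) - u * (3 * a ^ 2 * b + d * b ^ 3)) = x ^ 3 * (-(q ^ 3 * z)) := by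
      have h2 : (a ^ 2 - d * b ^ 2) ^ 3 = (x * q) ^ 3 := by rw [hq]
      linear_combination (a ^ 3 + 3 * d * a * b ^ 2) * hv - (3 * a ^ 2 * b + d * b ^ 3) * hu - z * h2
    exact mul_left_cancel₀ hx3 h1
  -- real bounds
  have hxr : (0 : ℝ) < x := by exact_mod_cast hx
  set R : ℝ := Real.sqrt x with hR
  have hR0 : 0 < R := Real.sqrt_pos.mpr hxr
  have hR2 : R ^ 2 = x := Real.sq_sqrt hxr.le
  have hR6 : (x : ℝ) ^ 3 = R ^ 3 * R ^ 3 := by rw [← hR2]; ring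
  have har : |(a : ℝ)| ≤ R := by
    apply Real.abs_le_sqrt; exact_mod_cast ha
  have hbr : |(b : ℝ)| ≤ R := by
    apply Real.abs_le_sqrt; exact_mod_cast hb
  have hKr : 4 * |((d * z ^ 2 : ℤ) : ℝ)| ≤ (x : ℝ) ^ 3 := by exact_mod_cast hK
  have hzK : (z : ℝ) ^ 2 ≤ |((d * z ^ 2 : ℤ) : ℝ)| := by
    push_cast
    rw [abs_mul, abs_of_nonneg (sq_nonneg (z : ℝ))]
    have h1 : (1 : ℝ) ≤ |(d : ℝ)| := by
      have := Int.one_le_abs hd0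
      exact_mod_cast this
    nlinarith [sq_nonneg (z : ℝ)]
  have hzr : |(z : ℝ)| ≤ R ^ 3 := by
    apply abs_le_of_sq_le_sq _ (by positivity) 
    have : (R ^ 3) ^ 2 = (x : ℝ) ^ 3 := by rw [hR6]; ring
    rw [this]
    nlinarith [abs_nonneg (((d * z ^ 2 : ℤ) : ℝ))]
  have hyr : |(y : ℝ)| ≤ 2 * R ^ 3 := by
    apply abs_le_of_sq_le_sq _ (by positivity)
    have h1 : (2 * R ^ 3) ^ 2 = 4 * (x : ℝ) ^ 3 := by rw [hR6]; ring
    have h2 : (y : ℝ) ^ 2 = (x : ℝ) ^ 3 + ((d * z ^ 2 : ℤ) : ℝ) := by exact_mod_cast heq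
    rw [h1, h2]
    nlinarith [le_abs_self (((d * z ^ 2 : ℤ) : ℝ)), abs_nonneg (((d * z ^ 2 : ℤ) : ℝ)), pow_pos hxr 3]
  have hA : |(a : ℝ) ^ 3 + 3 * d * a * b ^ 2| ≤ (1 + 3 * D) * R ^ 3 := by
    have h1 : |(a : ℝ) ^ 3| ≤ R ^ 3 := by rw [abs_pow]; exact pow_le_pow_left₀ (abs_nonneg _) har 3
    have h2 : |3 * (d : ℝ) * a * b ^ 2| ≤ 3 * D * R ^ 3 := by
      rw [abs_mul, abs_mul, abs_mul, abs_pow]
      have : |(3 : ℝ)| = 3 := abs_of_pos (by norm_num)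
      rw [this]
      calc 3 * |(d : ℝ)| * |(a : ℝ)| * |(b : ℝ)| ^ 2 ≤ 3 * D * R * R ^ 2 := by gcongr
        _ = 3 * D * R ^ 3 := by ring
    calc |(a : ℝ) ^ 3 + 3 * d * a * b ^ 2| ≤ _ := abs_add_le _ _
      _ ≤ R ^ 3 + 3 * D * R ^ 3 := add_le_add h1 h2
      _ = _ := by ring
  have hB : |3 * (a : ℝ) ^ 2 * b + d * b ^ 3| ≤ (3 + D) * R ^ 3 := by
    have h1 : |3 * (a : ℝ) ^ 2 * b| ≤ 3 * R ^ 3 := by
      rw [abs_mul, abs_mul, abs_pow]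
      have : |(3 : ℝ)| = 3 := abs_of_pos (by norm_num)
      rw [this]
      calc 3 * |(a : ℝ)| ^ 2 * |(b : ℝ)| ≤ 3 * R ^ 2 * R := by gcongr
        _ = 3 * R ^ 3 := by ring
    have h2 : |(d : ℝ) * b ^ 3| ≤ D * R ^ 3 := by
      rw [abs_mul, abs_pow]
      gcongr
    calc |3 * (a : ℝ) ^ 2 * b + d * b ^ 3| ≤ _ := abs_add_le _ _
      _ ≤ 3 * R ^ 3 + D * R ^ 3 := add_le_add h1 h2
      _ = _ := by ring
  have hR33 : 0 < R ^ 3 * R ^ 3 := by positivity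
  have huU : |u| ≤ U := by
    have h1 : (R ^ 3 * R ^ 3) * |(u : ℝ)| ≤ (R ^ 3 * R ^ 3) * (7 + 9 * D + D ^ 2) := by
      have h2 : (x : ℝ) ^ 3 * u = ((a : ℝ) ^ 3 + 3 * d * a * b ^ 2) * y - d * (3 * (a : ℝ) ^ 2 * b + d * b ^ 3) * z := by
        exact_mod_cast hu
      have h3 : (R ^ 3 * R ^ 3) * |(u : ℝ)| = |(x : ℝ) ^ 3 * u| := by
        rw [abs_mul, hR6, abs_of_pos hR33]
      rw [h3, h2]
      calc |((a : ℝ) ^ 3 + 3 * d * a * b ^ 2) * y - d * (3 * (a : ℝ) ^ 2 * b + d * b ^ 3) * z|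
          ≤ |((a : ℝ) ^ 3 + 3 * d * a * b ^ 2) * y| + |d * (3 * (a : ℝ) ^ 2 * b + d * b ^ 3) * z| := abs_sub _ _
        _ ≤ (1 + 3 * D) * R ^ 3 * (2 * R ^ 3) + D * ((3 + D) * R ^ 3) * R ^ 3 := by
            rw [abs_mul, abs_mul, abs_mul]
            gcongr
        _ ≤ _ := by nlinarith
    have h4 := le_of_mul_le_mul_left h1 hR33
    have h5 : ((|u| : ℤ) : ℝ) ≤ ((U : ℤ) : ℝ) := by
      rw [hU]; push_cast; exact h4
    exact_mod_cast h5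
  have hvU : |v| ≤ U := by
    have h1 : (R ^ 3 * R ^ 3) * |(v : ℝ)| ≤ (R ^ 3 * R ^ 3) * (7 + 9 * D + D ^ 2) := by
      have h2 : (x : ℝ) ^ 3 * v = (3 * (a : ℝ) ^ 2 * b + d * b ^ 3) * y - ((a : ℝ) ^ 3 + 3 * d * a * b ^ 2) * z := by
        exact_mod_cast hv
      have h3 : (R ^ 3 * R ^ 3) * |(v : ℝ)| = |(x : ℝ) ^ 3 * v| := by
        rw [abs_mul, hR6, abs_of_pos hR33]
      rw [h3, h2]
      calc |(3 * (a : ℝ) ^ 2 * b + d * b ^ 3) * y - ((a : ℝ) ^ 3 + 3 * d * a * b ^ 2) * z|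
          ≤ |(3 * (a : ℝ) ^ 2 * b + d * b ^ 3) * y| + |((a : ℝ) ^ 3 + 3 * d * a * b ^ 2) * z| := abs_sub _ _
        _ ≤ (3 + D) * R ^ 3 * (2 * R ^ 3) + (1 + 3 * D) * R ^ 3 * R ^ 3 := by
            rw [abs_mul, abs_mul]
            gcongr
        _ ≤ _ := by nlinarith [mul_nonneg hD0 hR33.le, mul_nonneg (sq_nonneg D) hR33.le]
    have h4 := le_of_mul_le_mul_left h1 hR33
    have h5 : ((|v| : ℤ) : ℝ) ≤ ((U : ℤ) : ℝ) := by
      rw [hU]; push_cast; exact h4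
    exact_mod_cast h5
  have hmem : (u, v) ∈ Finset.Icc (-U) U ×ˢ Finset.Icc (-U) U := by
    rw [Finset.mem_product, Finset.mem_Icc, Finset.mem_Icc]
    exact ⟨abs_le.mp huU, abs_le.mp hvU⟩
  have hkey := hform (u, v) hmem (by rw [hw]; exact pow_ne_zero 3 hq0) a b hab
    (by rw [hval]; exact neg_ne_zero.mpr (mul_ne_zero (pow_ne_zero 3 hq0) hz))
  rw [hval] at hkey
  -- sizes
  have hH1 := ht_ge_one hab
  set H := ht a b with hH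
  have haH : |(a : ℝ)| ≤ H := le_max_left _ _
  have hbH : |(b : ℝ)| ≤ H := le_max_right _ _
  have hqr : (a : ℝ) ^ 2 - d * b ^ 2 = x * q := by exact_mod_cast hq
  have hq1 : (1 : ℝ) ≤ |(q : ℝ)| := by
    have := Int.one_le_abs hq0
    exact_mod_cast this
  have hxH : (x : ℝ) ≤ (1 + D) * H ^ 2 := by
    have h1 : (x : ℝ) * |(q : ℝ)| ≤ (1 + D) * H ^ 2 := by
      have h2 : (x : ℝ) * |(q : ℝ)| = |(a : ℝ) ^ 2 - d * b ^ 2| := by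
        rw [hqr, abs_mul, abs_of_pos hxr]
      rw [h2]
      calc |(a : ℝ) ^ 2 - d * b ^ 2| ≤ |(a : ℝ) ^ 2| + |(d : ℝ) * b ^ 2| := abs_sub _ _
        _ ≤ H ^ 2 + D * H ^ 2 := by
            rw [abs_mul, abs_pow, abs_pow]
            gcongr
        _ = _ := by ring
    nlinarith
  have hqD : |(q : ℝ)| ≤ 1 + D := by
    have h1 : (x : ℝ) * |(q : ℝ)| ≤ x * (1 + D) := by
      have h2 : (x : ℝ) * |(q : ℝ)| = |(a : ℝ) ^ 2 - d * b ^ 2| := by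
        rw [hqr, abs_mul, abs_of_pos hxr]
      rw [h2]
      calc |(a : ℝ) ^ 2 - d * b ^ 2| ≤ |(a : ℝ) ^ 2| + |(d : ℝ) * b ^ 2| := abs_sub _ _
        _ ≤ R ^ 2 + D * R ^ 2 := by
            rw [abs_mul, abs_pow, abs_pow]
            gcongr
        _ = _ := by rw [hR2]; ring
    exact le_of_mul_le_mul_left h1 hxr
  have hvalr : |((-(q ^ 3 * z) : ℤ) : ℝ)| ≤ (1 + D) ^ 3 * |(z : ℝ)| := by
    push_cast
    rw [abs_neg, abs_mul, abs_pow]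
    gcongr
  have h7 : a₁ * H ^ N ≤ ((1 + D) ^ 3 * |(z : ℝ)|) ^ (N + 1) :=
    hkey.trans (pow_le_pow_left₀ (abs_nonneg _) hvalr _)
  have h8 : (a₁ * H ^ N) ^ 2 ≤ (((1 + D) ^ 3 * |(z : ℝ)|) ^ (N + 1)) ^ 2 :=
    pow_le_pow_left₀ (by positivity) h7 2
  have h9 : (((1 + D) ^ 3 * |(z : ℝ)|) ^ (N + 1)) ^ 2 = ((1 + D) ^ 3) ^ (2 * (N + 1)) * ((z : ℝ) ^ 2) ^ (N + 1) := by
    rw [← sq_abs (z : ℝ)]
    rw [← pow_mul, mul_pow, ← pow_mul (|(z : ℝ)|), mul_comm (N + 1) 2]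
  rw [div_mul_eq_mul_div, le_div_iff₀ (by positivity)]
  calc (x : ℝ) ^ N * a₁ ^ 2 ≤ ((1 + D) * H ^ 2) ^ N * a₁ ^ 2 := by gcongr
    _ = (1 + D) ^ N * (a₁ * H ^ N) ^ 2 := by
        rw [mul_pow, mul_pow, ← pow_mul, ← pow_mul, mul_comm 2 N]; ring
    _ ≤ (1 + D) ^ N * (((1 + D) ^ 3) ^ (2 * (N + 1)) * ((z : ℝ) ^ 2) ^ (N + 1)) := by
        rw [← h9]; gcongr
    _ ≤ (1 + D) ^ N * (((1 + D) ^ 3) ^ (2 * (N + 1)) * |((d * z ^ 2 : ℤ) : ℝ)| ^ (N + 1)) := by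
        gcongr
    _ = _ := by ring

end Pool.Agent.H19.FS
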